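import Pool.Agent.N637.SLX.Stm

/-!
# SLX-LAJ (helper555, for helper637's project SLX): the law for a random completion from the moments
-/

set_option autoImplicit false
set_option linter.unusedVariables false

open scoped Classical

namespace Pool.Agent.N555.SLX

open Finset Filter Topology
open Pool.Agent.N916.GB (ps sx pt)
open Pool.Agent.N637.SLX

theorem sx_symm {J : Type} [Fintype J] [LinearOrder J] (σ : ps J → ZMod 2) (k l : J) :
    sx σ k l = sx σ l k := by
  unfold sx
  by_cases h : (k, l) ∈ ps J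
  · have h' : (l, k) ∉ ps J := by
      intro h2
      simp only [ps, mem_filter, mem_univ, true_and] at h h2
      exact absurd h (not_lt.mpr h2.le)
    rw [dif_pos h, dif_neg h', dif_pos h]
  · rw [dif_neg h]
    by_cases h2 : (l, k) ∈ ps J
    · rw [dif_pos h2, dif_pos h2]
    · rw [dif_neg h2, dif_neg h2, dif_neg h]

theorem qf_pos (i : ℕ) : 0 < qf i := by
  unfold qf
  refine prod_pos fun s _ => ?_
  have : (1 : ℝ) < 2 ^ (s + 1) := one_lt_pow₀ (by norm_num) (by omega)
  linarith

theorem gl_pos (r : ℕ) : (0 : ℝ) < (gl r : ℝ) := by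
  have : 0 < gl r := by
    unfold gl
    refine prod_pos fun i hi => ?_
    have := Nat.pow_lt_pow_right (by norm_num : 1 < 2) (mem_range.mp hi)
    omega
  exact_mod_cast this

theorem cf_pos (r i : ℕ) : 0 < cf r i := by
  unfold cf
  have := gl_pos r
  have := qf_pos i
  positivity

theorem Stg.mono {U J : Type} [Fintype U] [Fintype J] [LinearOrder J] {w u e : U ⊕ J → ZMod 2}
    {N : U ⊕ J → U ⊕ J → ZMod 2} {V V' : ℕ} (h : Stg U J w u e N V) (hV : V' ≤ V) :
    Stg U J w u e N V' :=
  { hw := h.hw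
    hu := h.hu
    hN := h.hN
    hv := h.hv
    nd := h.nd
    rad := h.rad
    c1 := (Nat.mul_le_mul_right _ hV).trans h.c1
    c2 := (Nat.mul_le_mul_right _ hV).trans h.c2 }

theorem t_LAJ : S_INV → S_SER → S_MOM → S_REL → S_LAJ := by
  intro hI hS hM hR r j ε hε
  set A : ℝ := (alt r j : ℝ) / 2 ^ (r * (r - 1) / 2) with hA
  have hA0 : 0 ≤ A := by positivity
  have hg := gl_pos r
  -- the partial sums
  set T : ℕ → ℝ := fun m => ∑ i ∈ range (m + 1), (-1 : ℝ) ^ i / (2 ^ (r * i) * qf i) with hT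
  have hlim : Tendsto (fun m => A / gl r * T m) atTop (𝓝 (law r j)) := by
    have := (hS r).const_mul (A / gl r)
    exact this
  rw [Metric.tendsto_atTop] at hlim
  obtain ⟨m, hm⟩ := hlim (ε / 8) (by positivity)
  have h1 := hm m le_rfl
  have h2 := hm (m + 1) (Nat.le_succ m)
  rw [Real.dist_eq] at h1 h2
  -- the last term
  have hlast : 2 ^ (r + (m + 1)) * A / cf r (m + 1) ≤ ε / 4 := by
    have e1 : A / gl r * T (m + 1) - A / gl r * T m =
        (-1) ^ (m + 1) * (2 ^ (r + (m + 1)) * A / cf r (m + 1)) := by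
      have : T (m + 1) = T m + (-1 : ℝ) ^ (m + 1) / (2 ^ (r * (m + 1)) * qf (m + 1)) := by
        simp only [hT]
        rw [sum_range_succ]
      rw [this]
      unfold cf
      have hq := qf_pos (m + 1)
      field_simp
      ring
    have e2 : |A / gl r * T (m + 1) - A / gl r * T m| = 2 ^ (r + (m + 1)) * A / cf r (m + 1) := by
      rw [e1, abs_mul, abs_pow, abs_neg, abs_one, one_pow, one_mul, abs_of_nonneg]
      have := cf_pos r (m + 1)
      positivity
    rw [← e2]
    have : A / gl r * T (m + 1) - A / gl r * T m =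
      (A / gl r * T (m + 1) - law r j) - (A / gl r * T m - law r j) := by ring
    rw [this]
    refine (abs_sub _ _).trans ?_
    linarith
  -- the small number
  set K : ℝ := ∑ i ∈ range (m + 2), 1 / cf r i with hK
  have hK0 : 0 ≤ K := sum_nonneg fun i _ => by have := cf_pos r i; positivity
  set δ : ℝ := ε / (4 * (1 + K)) with hδ
  have hδ0 : 0 < δ := by positivity
  have hδK : δ * K ≤ ε / 4 := by
    rw [hδ, div_mul_eq_mul_div, div_le_div_iff₀ (by positivity) (by norm_num)]
    nlinarith
  choose V hV using fun i => hM r i j δ hδ0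
  refine ⟨max 1 ((range (m + 2)).sup V), ?_⟩
  intro U J _ _ _ w u e N hStg
  have hst1 : Stg U J w u e N 1 := Stg.mono hStg (le_max_left _ _)
  set Pn : ℝ := 2 ^ (ps J).card with hPn
  have hPn0 : 0 < Pn := by positivity
  set M : ℕ → ℝ := fun i => (∑ σ : ps J → ZMod 2, (Tn w e (pt N (sx σ)) r i j : ℝ)) / Pn with hMd
  have hMi : ∀ i ∈ range (m + 2), |M i - 2 ^ (r + i) * A| ≤ δ := by
    intro i hi
    have := hV i U J w u e N (Stg.mono hStg ((Finset.le_sup (f := V) hi).trans (le_max_right _ _)))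
    rw [mul_div_assoc] at this
    exact this
  obtain ⟨hrel, -, -⟩ := hR U J w u e N hst1
  -- inclusion and exclusion, averaged
  have hav : |((univ.filter fun σ : ps J → ZMod 2 => Crit (pt N (sx σ)) e r j).card : ℝ) / Pn -
      ∑ i ∈ range (m + 1), (-1) ^ i * M i / cf r i| ≤ M (m + 1) / cf r (m + 1) := by
    have e1 : ((univ.filter fun σ : ps J → ZMod 2 => Crit (pt N (sx σ)) e r j).card : ℝ) / Pn -
      ∑ i ∈ range (m + 1), (-1) ^ i * M i / cf r i =
      (∑ σ : ps J → ZMod 2, ((if Crit (pt N (sx σ)) e r j then (1 : ℝ) else 0) -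
        ∑ i ∈ range (m + 1), (-1) ^ i * (Tn w e (pt N (sx σ)) r i j : ℝ) / cf r i)) / Pn := by
      rw [sum_sub_distrib, sub_div, sum_comm]
      congr 1
      · rw [Finset.sum_boole]
      · rw [sum_div]
        refine sum_congr rfl fun i _ => ?_
        simp only [hMd]
        rw [← sum_div, ← mul_sum]
        ring
    have e2 : M (m + 1) / cf r (m + 1) =
      (∑ σ : ps J → ZMod 2, (Tn w e (pt N (sx σ)) r (m + 1) j : ℝ) / cf r (m + 1)) / Pn := by
      simp only [hMd]
      rw [← sum_div]
      ring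
    rw [e1, e2, abs_div, abs_of_pos hPn0]
    refine div_le_div_of_nonneg_right ?_ hPn0.le
    refine (abs_sum_le_sum_abs _ _).trans (sum_le_sum fun σ _ => ?_)
    obtain ⟨hw0, hrad, -⟩ := hrel (sx σ) (fun k l => sx_symm σ k l)
    exact hI (U ⊕ J) w e (pt N (sx σ)) hw0 hrad r j m
  -- the moments
  have hmom : |∑ i ∈ range (m + 1), (-1) ^ i * M i / cf r i - A / gl r * T m| ≤
      ∑ i ∈ range (m + 1), δ * (1 / cf r i) := by
    have e1 : ∑ i ∈ range (m + 1), (-1) ^ i * M i / cf r i - A / gl r * T m =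
        ∑ i ∈ range (m + 1), (-1) ^ i * (M i - 2 ^ (r + i) * A) * (1 / cf r i) := by
      simp only [hT]
      rw [mul_sum, ← sum_sub_distrib]
      refine sum_congr rfl fun i _ => ?_
      have hq := qf_pos i
      have hc := cf_pos r i
      unfold cf
      field_simp
    rw [e1]
    refine (abs_sum_le_sum_abs _ _).trans (sum_le_sum fun i hi => ?_)
    have hc := cf_pos r i
    rw [abs_mul, abs_mul, abs_pow, abs_neg, abs_one, one_pow, one_mul, abs_of_pos (by positivity :
      (0 : ℝ) < 1 / cf r i)]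
    exact mul_le_mul_of_nonneg_right (hMi i (by simp only [mem_range] at hi ⊢; omega)) (by positivity)
  have hM1 : M (m + 1) / cf r (m + 1) ≤ ε / 4 + δ * (1 / cf r (m + 1)) := by
    have hc := cf_pos r (m + 1)
    have h3 := (abs_le.mp (hMi (m + 1) (by simp))).2
    have h4 : M (m + 1) ≤ 2 ^ (r + (m + 1)) * A + δ := by linarith
    calc M (m + 1) / cf r (m + 1) ≤ (2 ^ (r + (m + 1)) * A + δ) / cf r (m + 1) :=
          div_le_div_of_nonneg_right h4 hc.le
      _ = 2 ^ (r + (m + 1)) * A / cf r (m + 1) + δ * (1 / cf r (m + 1)) := by ring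
      _ ≤ _ := by linarith
  have hKs : ∑ i ∈ range (m + 1), δ * (1 / cf r i) + δ * (1 / cf r (m + 1)) = δ * K := by
    rw [hK, sum_range_succ _ (m + 1), mul_add, mul_sum]
  have f1 : ((univ.filter fun σ : ps J → ZMod 2 => Crit (pt N (sx σ)) e r j).card : ℝ) / Pn -
    law r j = (((univ.filter fun σ : ps J → ZMod 2 => Crit (pt N (sx σ)) e r j).card : ℝ) / Pn -
      ∑ i ∈ range (m + 1), (-1) ^ i * M i / cf r i) +
      ((∑ i ∈ range (m + 1), (-1) ^ i * M i / cf r i - A / gl r * T m) +
        (A / gl r * T m - law r j)) := by ring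
  rw [f1]
  refine (abs_add_le _ _).trans ?_
  have f2 := abs_add_le (∑ i ∈ range (m + 1), (-1) ^ i * M i / cf r i - A / gl r * T m)
    (A / gl r * T m - law r j)
  linarith

end Pool.Agent.N555.SLX
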